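import Pool.Agent.U753.MK.Stm

/-!
# Monotonicity of the relative entropy under trace preserving conditional expectations
-/

set_option autoImplicit false

open scoped BigOperators Matrix ComplexOrder
open scoped Matrix.Norms.L2Operator

noncomputable section

namespace Pool.Agent.U460.MK

open Pool.Agent.U753.MK Matrix

section
variable {n : Type} [Fintype n] [DecidableEq n]

/-- a unitary diagonalisation together with its exponential -/
theorem spec {X : Matrix n n ℂ} (hX : X.IsHermitian) :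
    ∃ (U : Matrix n n ℂ) (x : n → ℝ), U * Uᴴ = 1 ∧ Uᴴ * U = 1 ∧
      X = U * diagonal (fun i => (x i : ℂ)) * Uᴴ ∧
      NormedSpace.exp X = U * diagonal (fun i => (Real.exp (x i) : ℂ)) * Uᴴ := by
  have h1 : (hX.eigenvectorUnitary : Matrix n n ℂ) * (hX.eigenvectorUnitary : Matrix n n ℂ)ᴴ = 1 := by
    rw [← star_eq_conjTranspose]
    exact Unitary.coe_mul_star_self _
  have h2 : (hX.eigenvectorUnitary : Matrix n n ℂ)ᴴ * (hX.eigenvectorUnitary : Matrix n n ℂ) = 1 := by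
    rw [← star_eq_conjTranspose]
    exact Unitary.coe_star_mul_self _
  have h3 : X = (hX.eigenvectorUnitary : Matrix n n ℂ) *
      diagonal (fun i => (hX.eigenvalues i : ℂ)) * (hX.eigenvectorUnitary : Matrix n n ℂ)ᴴ := by
    have := hX.spectral_theorem
    rw [Unitary.conjStarAlgAut_apply] at this
    exact this
  refine ⟨hX.eigenvectorUnitary, hX.eigenvalues, h1, h2, h3, ?_⟩
  have h4 : (hX.eigenvectorUnitary : Matrix n n ℂ)⁻¹ = (hX.eigenvectorUnitary : Matrix n n ℂ)ᴴ :=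
    Matrix.inv_eq_right_inv h1
  have h5 : IsUnit (hX.eigenvectorUnitary : Matrix n n ℂ) :=
    IsUnit.of_mul_eq_one _ h1
  have h6 := Matrix.exp_conj (hX.eigenvectorUnitary : Matrix n n ℂ)
    (diagonal (fun i => (hX.eigenvalues i : ℂ))) h5
  rw [h4, ← h3, Matrix.exp_diagonal] at h6
  rw [h6]
  congr 2
  congr 1
  funext i
  rw [Pi.coe_exp, ← Complex.exp_eq_exp_ℂ, Complex.ofReal_exp]

theorem conj_pow (U : Matrix n n ℂ) (h1 : U * Uᴴ = 1) (h2 : Uᴴ * U = 1) (a : n → ℂ) (k : ℕ) :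
    (U * diagonal a * Uᴴ) ^ k = U * diagonal (fun i => a i ^ k) * Uᴴ := by
  induction k with
  | zero => simp [h1]
  | succ k ih =>
    rw [pow_succ, ih]
    calc U * diagonal (fun i => a i ^ k) * Uᴴ * (U * diagonal a * Uᴴ)
        = U * diagonal (fun i => a i ^ k) * (Uᴴ * U) * diagonal a * Uᴴ := by
          simp only [Matrix.mul_assoc]
      _ = U * (diagonal (fun i => a i ^ k) * diagonal a) * Uᴴ := by
          rw [h2, Matrix.mul_one]; simp only [Matrix.mul_assoc]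
      _ = _ := by
          rw [diagonal_mul_diagonal]
          simp only [pow_succ]

variable {E : Matrix n n ℂ → Matrix n n ℂ}

/-- `E` as a linear map -/
def EL (hE : IsCE E) : Matrix n n ℂ →ₗ[ℂ] Matrix n n ℂ where
  toFun := E
  map_add' := hE.add
  map_smul' := hE.smul

theorem mul_range (hE : IsCE E) {X Y : Matrix n n ℂ} (hX : E X = X) (hY : E Y = Y) :
    E (X * Y) = X * Y := by
  have := hE.mul_right X Y
  rwa [hX, hY] at this

theorem one_range (hE : IsCE E) {X : Matrix n n ℂ} (hu : IsUnit X) (hX : E X = X) :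
    E 1 = 1 := by
  have h1 := hE.mul_right 1 X
  rw [hX, Matrix.one_mul, hX] at h1
  obtain ⟨u, rfl⟩ := hu
  have h2 : (u : Matrix n n ℂ) * (↑u⁻¹ : Matrix n n ℂ) = 1 := u.mul_inv
  calc E 1 = E 1 * ((u : Matrix n n ℂ) * (↑u⁻¹ : Matrix n n ℂ)) := by rw [h2, Matrix.mul_one]
    _ = (E 1 * (u : Matrix n n ℂ)) * (↑u⁻¹ : Matrix n n ℂ) := by rw [Matrix.mul_assoc]
    _ = 1 := by rw [← h1, h2]

theorem pow_range (hE : IsCE E) (h1 : E 1 = 1) {X : Matrix n n ℂ} (hX : E X = X) (k : ℕ) :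
    E (X ^ k) = X ^ k := by
  induction k with
  | zero => simpa using h1
  | succ k ih => rw [pow_succ]; exact mul_range hE ih hX

end

theorem t_logRange : StmLogRange := by
  intro n _ _ E hE X hX hexp
  obtain ⟨U, x, h1, h2, h3, h4⟩ := spec hX
  have hu : IsUnit (NormedSpace.exp X) := Matrix.isUnit_exp X
  have hone := one_range hE hu hexp
  classical
  let s : Finset ℂ := Finset.univ.image fun i => (Real.exp (x i) : ℂ)
  let p : Polynomial ℂ := Lagrange.interpolate s id (fun v => (Real.log v.re : ℂ))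
  have hp : ∀ i, p.eval (Real.exp (x i) : ℂ) = (x i : ℂ) := by
    intro i
    have h := Lagrange.eval_interpolate_at_node (s := s) (v := (id : ℂ → ℂ))
      (i := (Real.exp (x i) : ℂ)) (fun v => (Real.log v.re : ℂ)) (Function.injective_id.injOn)
      (Finset.mem_image_of_mem _ (Finset.mem_univ i))
    rw [id] at h
    rw [h, Complex.ofReal_re, Real.log_exp]
  have hX' : X = ∑ k ∈ Finset.range (p.natDegree + 1), p.coeff k • (NormedSpace.exp X) ^ k := by
    have e : ∀ k, p.coeff k • (NormedSpace.exp X) ^ k =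
        U * (p.coeff k • diagonal (fun i => (Real.exp (x i) : ℂ) ^ k)) * Uᴴ := by
      intro k
      rw [h4, conj_pow U h1 h2, Matrix.mul_smul, Matrix.smul_mul]
    simp only [e]
    rw [← Finset.sum_mul, ← Finset.mul_sum]
    conv_lhs => rw [h3]
    congr 2
    ext i j
    rw [Matrix.sum_apply]
    by_cases hij : i = j
    · subst hij
      simp only [Matrix.smul_apply, Matrix.diagonal_apply_eq, smul_eq_mul]
      rw [← hp i, Polynomial.eval_eq_sum_range]
    · simp [Matrix.diagonal_apply_ne _ hij, Matrix.smul_apply]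
  have hL : EL hE X = X := by
    conv_lhs => rw [hX']
    rw [map_sum]
    conv_rhs => rw [hX']
    refine Finset.sum_congr rfl fun k _ => ?_
    rw [map_smul]
    congr 1
    exact pow_range hE hone hexp k
  exact hL

section
variable {n : Type} [Fintype n] [DecidableEq n]

theorem trace_conj {U : Matrix n n ℂ} (h2 : Uᴴ * U = 1) (A : Matrix n n ℂ) :
    (U * A * Uᴴ).trace = A.trace := by
  rw [Matrix.trace_mul_cycle, h2, Matrix.one_mul]

theorem trace_two {U V : Matrix n n ℂ} (a b : n → ℝ) :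
    (U * diagonal (fun i => (a i : ℂ)) * Uᴴ * (V * diagonal (fun i => (b i : ℂ)) * Vᴴ)).trace =
      ∑ k, ∑ j, ((Complex.normSq ((Vᴴ * U) k j) * a j * b k : ℝ) : ℂ) := by
  have h : (U * diagonal (fun i => (a i : ℂ)) * Uᴴ *
      (V * diagonal (fun i => (b i : ℂ)) * Vᴴ)).trace =
      ((Vᴴ * U) * diagonal (fun i => (a i : ℂ)) * (Vᴴ * U)ᴴ * diagonal (fun i => (b i : ℂ))).trace := by
    have e1 : U * diagonal (fun i => (a i : ℂ)) * Uᴴ * (V * diagonal (fun i => (b i : ℂ)) * Vᴴ) =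
      (U * diagonal (fun i => (a i : ℂ)) * Uᴴ * V * diagonal (fun i => (b i : ℂ))) * Vᴴ := by
      simp only [Matrix.mul_assoc]
    rw [e1, Matrix.trace_mul_comm, conjTranspose_mul, conjTranspose_conjTranspose]
    simp only [Matrix.mul_assoc]
  rw [h, Matrix.trace]
  refine Finset.sum_congr rfl fun k _ => ?_
  rw [Matrix.diag_apply, Matrix.mul_diagonal, Matrix.mul_apply, Finset.sum_mul]
  refine Finset.sum_congr rfl fun j _ => ?_
  rw [Matrix.mul_diagonal, conjTranspose_apply]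
  push_cast
  rw [Complex.normSq_eq_conj_mul_self]
  have : star ((Vᴴ * U) k j) = (starRingEnd ℂ) ((Vᴴ * U) k j) := rfl
  rw [this]
  ring

/-- the quadratic form -/
def Phi (ρ σ : Matrix n n ℂ) (t : ℝ) (Z : Matrix n n ℂ) : ℝ :=
  2 * (Zᴴ * ρ).trace.re - (Zᴴ * σ * Z).trace.re - t * (Z * ρ * Zᴴ).trace.re

def Fs (W : Matrix n n ℂ) (p q : n → ℝ) (t : ℝ) : ℝ :=
  ∑ k, ∑ j, Complex.normSq (W k j) * (p j ^ 2 / (q k + t * p j))

theorem phi_eq {U V : Matrix n n ℂ} (hU : Uᴴ * U = 1) (hV : Vᴴ * V = 1) (p q : n → ℝ) (t : ℝ)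
    (z : Matrix n n ℂ) :
    Phi (U * diagonal (fun i => (p i : ℂ)) * Uᴴ) (V * diagonal (fun i => (q i : ℂ)) * Vᴴ) t
      (V * z * Uᴴ) = ∑ k, ∑ j, (2 * p j * ((starRingEnd ℂ) (z k j) * (Vᴴ * U) k j).re -
        Complex.normSq (z k j) * (q k + t * p j)) := by
  have hZ : (V * z * Uᴴ)ᴴ = U * zᴴ * Vᴴ := by
    rw [conjTranspose_mul, conjTranspose_mul, conjTranspose_conjTranspose, Matrix.mul_assoc]
  have h1 : ((V * z * Uᴴ)ᴴ * (U * diagonal (fun i => (p i : ℂ)) * Uᴴ)).trace =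
      ∑ k, ∑ j, (starRingEnd ℂ) (z k j) * (Vᴴ * U) k j * (p j : ℂ) := by
    have e : (V * z * Uᴴ)ᴴ * (U * diagonal (fun i => (p i : ℂ)) * Uᴴ) =
        U * (zᴴ * (Vᴴ * U) * diagonal (fun i => (p i : ℂ))) * Uᴴ := by
      rw [hZ]; simp only [Matrix.mul_assoc]
    rw [e, trace_conj hU, Matrix.trace, Finset.sum_comm]
    refine Finset.sum_congr rfl fun j _ => ?_
    rw [Matrix.diag_apply, Matrix.mul_diagonal, Matrix.mul_apply, Finset.sum_mul]
    rfl
  have h2 : ((V * z * Uᴴ)ᴴ * (V * diagonal (fun i => (q i : ℂ)) * Vᴴ) * (V * z * Uᴴ)).trace =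
      ∑ k, ∑ j, (Complex.normSq (z k j) : ℂ) * (q k : ℂ) := by
    have e : (V * z * Uᴴ)ᴴ * (V * diagonal (fun i => (q i : ℂ)) * Vᴴ) * (V * z * Uᴴ) =
        U * (zᴴ * diagonal (fun i => (q i : ℂ)) * z) * Uᴴ := by
      rw [hZ]
      calc U * zᴴ * Vᴴ * (V * diagonal (fun i => (q i : ℂ)) * Vᴴ) * (V * z * Uᴴ)
          = U * zᴴ * (Vᴴ * V) * diagonal (fun i => (q i : ℂ)) * (Vᴴ * V) * z * Uᴴ := by
            simp only [Matrix.mul_assoc]
        _ = _ := by rw [hV]; simp only [Matrix.mul_assoc, Matrix.mul_one, Matrix.one_mul]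
    rw [e, trace_conj hU, Matrix.trace, Finset.sum_comm]
    refine Finset.sum_congr rfl fun j _ => ?_
    rw [Matrix.diag_apply, Matrix.mul_apply]
    refine Finset.sum_congr rfl fun k _ => ?_
    rw [Matrix.mul_diagonal, conjTranspose_apply, Complex.normSq_eq_conj_mul_self]
    have : star (z k j) = (starRingEnd ℂ) (z k j) := rfl
    rw [this]; ring
  have h3 : ((V * z * Uᴴ) * (U * diagonal (fun i => (p i : ℂ)) * Uᴴ) * (V * z * Uᴴ)ᴴ).trace =
      ∑ k, ∑ j, (Complex.normSq (z k j) : ℂ) * (p j : ℂ) := by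
    have e : (V * z * Uᴴ) * (U * diagonal (fun i => (p i : ℂ)) * Uᴴ) * (V * z * Uᴴ)ᴴ =
        V * (z * diagonal (fun i => (p i : ℂ)) * zᴴ) * Vᴴ := by
      rw [hZ]
      calc V * z * Uᴴ * (U * diagonal (fun i => (p i : ℂ)) * Uᴴ) * (U * zᴴ * Vᴴ)
          = V * z * (Uᴴ * U) * diagonal (fun i => (p i : ℂ)) * (Uᴴ * U) * zᴴ * Vᴴ := by
            simp only [Matrix.mul_assoc]
        _ = _ := by rw [hU]; simp only [Matrix.mul_assoc, Matrix.mul_one, Matrix.one_mul]
    rw [e, trace_conj hV, Matrix.trace]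
    refine Finset.sum_congr rfl fun k _ => ?_
    rw [Matrix.diag_apply, Matrix.mul_apply]
    refine Finset.sum_congr rfl fun j _ => ?_
    rw [Matrix.mul_diagonal, conjTranspose_apply, Complex.normSq_eq_conj_mul_self]
    have : star (z k j) = (starRingEnd ℂ) (z k j) := rfl
    rw [this]; ring
  have r1 : (∑ k, ∑ j, (starRingEnd ℂ) (z k j) * (Vᴴ * U) k j * (p j : ℂ)).re =
      ∑ k, ∑ j, ((starRingEnd ℂ) (z k j) * (Vᴴ * U) k j).re * p j := by
    rw [Complex.re_sum]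
    refine Finset.sum_congr rfl fun k _ => ?_
    rw [Complex.re_sum]
    refine Finset.sum_congr rfl fun j _ => ?_
    rw [Complex.re_mul_ofReal]
  have r2 : (∑ k, ∑ j, (Complex.normSq (z k j) : ℂ) * (q k : ℂ)).re =
      ∑ k, ∑ j, Complex.normSq (z k j) * q k := by
    rw [Complex.re_sum]
    refine Finset.sum_congr rfl fun k _ => ?_
    rw [Complex.re_sum]
    refine Finset.sum_congr rfl fun j _ => ?_
    rw [Complex.re_mul_ofReal, Complex.ofReal_re]
  have r3 : (∑ k, ∑ j, (Complex.normSq (z k j) : ℂ) * (p j : ℂ)).re =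
      ∑ k, ∑ j, Complex.normSq (z k j) * p j := by
    rw [Complex.re_sum]
    refine Finset.sum_congr rfl fun k _ => ?_
    rw [Complex.re_sum]
    refine Finset.sum_congr rfl fun j _ => ?_
    rw [Complex.re_mul_ofReal, Complex.ofReal_re]
  unfold Phi
  rw [h1, h2, h3, r1, r2, r3, Finset.mul_sum, Finset.mul_sum, ← Finset.sum_sub_distrib,
    ← Finset.sum_sub_distrib]
  refine Finset.sum_congr rfl fun k _ => ?_
  rw [Finset.mul_sum, Finset.mul_sum, ← Finset.sum_sub_distrib, ← Finset.sum_sub_distrib]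
  refine Finset.sum_congr rfl fun j _ => ?_
  ring

theorem square_le (z w : ℂ) (p c : ℝ) (hp : 0 ≤ p) (hc : 0 < c) :
    2 * p * ((starRingEnd ℂ) z * w).re - Complex.normSq z * c ≤
      Complex.normSq w * (p ^ 2 / c) := by
  have h1 : ((starRingEnd ℂ) z * w).re = z.re * w.re + z.im * w.im := by
    simp [Complex.mul_re]
  rw [h1, Complex.normSq_apply, Complex.normSq_apply]
  have h2 : 0 ≤ ((c * z.re - p * w.re) ^ 2 + (c * z.im - p * w.im) ^ 2) / c :=
    div_nonneg (by positivity) hc.le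
  have h3 : ((c * z.re - p * w.re) ^ 2 + (c * z.im - p * w.im) ^ 2) / c =
      (z.re * z.re + z.im * z.im) * c - 2 * p * (z.re * w.re + z.im * w.im) +
        (w.re * w.re + w.im * w.im) * (p ^ 2 / c) := by
    field_simp
    ring
  linarith

theorem phi_le {U V : Matrix n n ℂ} (hU : Uᴴ * U = 1) (hU' : U * Uᴴ = 1) (hV : Vᴴ * V = 1)
    (hV' : V * Vᴴ = 1) (p q : n → ℝ) (hp : ∀ i, 0 < p i) (hq : ∀ i, 0 < q i) (t : ℝ) (ht : 0 ≤ t)
    (Z : Matrix n n ℂ) :
    Phi (U * diagonal (fun i => (p i : ℂ)) * Uᴴ) (V * diagonal (fun i => (q i : ℂ)) * Vᴴ) t Z ≤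
      Fs (Vᴴ * U) p q t := by
  have hZ : Z = V * (Vᴴ * Z * U) * Uᴴ := by
    calc Z = (V * Vᴴ) * Z * (U * Uᴴ) := by rw [hU', hV', Matrix.one_mul, Matrix.mul_one]
      _ = _ := by simp only [Matrix.mul_assoc]
  rw [hZ, phi_eq hU hV]
  unfold Fs
  refine Finset.sum_le_sum fun k _ => Finset.sum_le_sum fun j _ => ?_
  exact square_le _ _ _ _ (hp j).le (add_pos_of_pos_of_nonneg (hq k) (mul_nonneg ht (hp j).le))

/-- the maximiser -/
theorem exists_max {U V : Matrix n n ℂ} (hU : Uᴴ * U = 1) (hV : Vᴴ * V = 1)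
    (hV' : V * Vᴴ = 1) (p q : n → ℝ) (hp : ∀ i, 0 < p i) (hq : ∀ i, 0 < q i) (t : ℝ) (ht : 0 ≤ t) :
    ∃ Z : Matrix n n ℂ,
      (V * diagonal (fun i => (q i : ℂ)) * Vᴴ) * Z +
        (t : ℂ) • (Z * (U * diagonal (fun i => (p i : ℂ)) * Uᴴ)) =
        U * diagonal (fun i => (p i : ℂ)) * Uᴴ ∧
      Phi (U * diagonal (fun i => (p i : ℂ)) * Uᴴ) (V * diagonal (fun i => (q i : ℂ)) * Vᴴ) t Z =
        Fs (Vᴴ * U) p q t := by
  have hc : ∀ k j, 0 < q k + t * p j := fun k j =>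
    add_pos_of_pos_of_nonneg (hq k) (mul_nonneg ht (hp j).le)
  let z : Matrix n n ℂ := Matrix.of fun k j => (Vᴴ * U) k j * ((p j / (q k + t * p j) : ℝ) : ℂ)
  refine ⟨V * z * Uᴴ, ?_, ?_⟩
  · have e1 : (V * diagonal (fun i => (q i : ℂ)) * Vᴴ) * (V * z * Uᴴ) =
        V * (diagonal (fun i => (q i : ℂ)) * z) * Uᴴ := by
      calc (V * diagonal (fun i => (q i : ℂ)) * Vᴴ) * (V * z * Uᴴ)
          = V * diagonal (fun i => (q i : ℂ)) * (Vᴴ * V) * z * Uᴴ := by
            simp only [Matrix.mul_assoc]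
        _ = _ := by rw [hV]; simp only [Matrix.mul_assoc, Matrix.one_mul]
    have e2 : (V * z * Uᴴ) * (U * diagonal (fun i => (p i : ℂ)) * Uᴴ) =
        V * (z * diagonal (fun i => (p i : ℂ))) * Uᴴ := by
      calc (V * z * Uᴴ) * (U * diagonal (fun i => (p i : ℂ)) * Uᴴ)
          = V * z * (Uᴴ * U) * diagonal (fun i => (p i : ℂ)) * Uᴴ := by
            simp only [Matrix.mul_assoc]
        _ = _ := by rw [hU]; simp only [Matrix.mul_assoc, Matrix.one_mul]
    have e3 : diagonal (fun i => (q i : ℂ)) * z + (t : ℂ) • (z * diagonal (fun i => (p i : ℂ))) =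
        (Vᴴ * U) * diagonal (fun i => (p i : ℂ)) := by
      ext k j
      rw [Matrix.add_apply, Matrix.smul_apply, Matrix.diagonal_mul, Matrix.mul_diagonal,
        Matrix.mul_diagonal, smul_eq_mul]
      show (q k : ℂ) * ((Vᴴ * U) k j * ((p j / (q k + t * p j) : ℝ) : ℂ)) +
        (t : ℂ) * ((Vᴴ * U) k j * ((p j / (q k + t * p j) : ℝ) : ℂ) * (p j : ℂ)) =
        (Vᴴ * U) k j * (p j : ℂ)
      have hne : ((q k + t * p j : ℝ) : ℂ) ≠ 0 := by exact_mod_cast (hc k j).ne'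
      have e4 : ((p j / (q k + t * p j) : ℝ) : ℂ) * ((q k + t * p j : ℝ) : ℂ) = (p j : ℂ) := by
        rw [← Complex.ofReal_mul, div_mul_cancel₀ _ (hc k j).ne']
      calc _ = (Vᴴ * U) k j * (((p j / (q k + t * p j) : ℝ) : ℂ) * ((q k + t * p j : ℝ) : ℂ)) := by
            push_cast; ring
        _ = _ := by rw [e4]
    have e5 : (t : ℂ) • (V * (z * diagonal (fun i => (p i : ℂ))) * Uᴴ) =
        V * ((t : ℂ) • (z * diagonal (fun i => (p i : ℂ)))) * Uᴴ := by
      rw [Matrix.mul_smul, Matrix.smul_mul]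
    rw [e1, e2, e5, ← Matrix.add_mul, ← Matrix.mul_add, e3]
    calc V * (Vᴴ * U * diagonal (fun i => (p i : ℂ))) * Uᴴ
        = (V * Vᴴ) * U * diagonal (fun i => (p i : ℂ)) * Uᴴ := by simp only [Matrix.mul_assoc]
      _ = _ := by rw [hV', Matrix.one_mul]
  · rw [phi_eq hU hV]
    unfold Fs
    refine Finset.sum_congr rfl fun k _ => Finset.sum_congr rfl fun j _ => ?_
    show 2 * p j * ((starRingEnd ℂ) ((Vᴴ * U) k j * ((p j / (q k + t * p j) : ℝ) : ℂ)) *
      (Vᴴ * U) k j).re - Complex.normSq ((Vᴴ * U) k j * ((p j / (q k + t * p j) : ℝ) : ℂ)) *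
      (q k + t * p j) = _
    rw [map_mul, Complex.conj_ofReal, Complex.normSq_mul, Complex.normSq_ofReal]
    have e1 : ((starRingEnd ℂ) ((Vᴴ * U) k j) * ((p j / (q k + t * p j) : ℝ) : ℂ) *
        (Vᴴ * U) k j).re = Complex.normSq ((Vᴴ * U) k j) * (p j / (q k + t * p j)) := by
      have : (starRingEnd ℂ) ((Vᴴ * U) k j) * ((p j / (q k + t * p j) : ℝ) : ℂ) * (Vᴴ * U) k j =
          ((Complex.normSq ((Vᴴ * U) k j) * (p j / (q k + t * p j)) : ℝ) : ℂ) := by
        rw [Complex.ofReal_mul, Complex.normSq_eq_conj_mul_self]; ring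
      rw [this, Complex.ofReal_re]
    rw [e1]
    have := (hc k j).ne'
    field_simp
    ring

theorem unique_zero {U V : Matrix n n ℂ} (hU : Uᴴ * U = 1) (hU' : U * Uᴴ = 1) (hV : Vᴴ * V = 1)
    (hV' : V * Vᴴ = 1) (p q : n → ℝ) (hp : ∀ i, 0 < p i) (hq : ∀ i, 0 < q i) (t : ℝ) (ht : 0 ≤ t)
    (D : Matrix n n ℂ) (h : (V * diagonal (fun i => (q i : ℂ)) * Vᴴ) * D +
        (t : ℂ) • (D * (U * diagonal (fun i => (p i : ℂ)) * Uᴴ)) = 0) : D = 0 := by
  have h1 : diagonal (fun i => (q i : ℂ)) * (Vᴴ * D * U) +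
      (t : ℂ) • ((Vᴴ * D * U) * diagonal (fun i => (p i : ℂ))) = 0 := by
    have e : Vᴴ * ((V * diagonal (fun i => (q i : ℂ)) * Vᴴ) * D +
        (t : ℂ) • (D * (U * diagonal (fun i => (p i : ℂ)) * Uᴴ))) * U = 0 := by
      rw [h, Matrix.mul_zero, Matrix.zero_mul]
    rw [Matrix.mul_add, Matrix.add_mul, Matrix.mul_smul, Matrix.smul_mul] at e
    have e1 : Vᴴ * ((V * diagonal (fun i => (q i : ℂ)) * Vᴴ) * D) * U =
        diagonal (fun i => (q i : ℂ)) * (Vᴴ * D * U) := by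
      calc Vᴴ * ((V * diagonal (fun i => (q i : ℂ)) * Vᴴ) * D) * U
          = (Vᴴ * V) * diagonal (fun i => (q i : ℂ)) * Vᴴ * D * U := by
            simp only [Matrix.mul_assoc]
        _ = _ := by rw [hV]; simp only [Matrix.mul_assoc, Matrix.one_mul]
    have e2 : Vᴴ * (D * (U * diagonal (fun i => (p i : ℂ)) * Uᴴ)) * U =
        (Vᴴ * D * U) * diagonal (fun i => (p i : ℂ)) := by
      calc Vᴴ * (D * (U * diagonal (fun i => (p i : ℂ)) * Uᴴ)) * U
          = Vᴴ * D * U * diagonal (fun i => (p i : ℂ)) * (Uᴴ * U) := by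
            simp only [Matrix.mul_assoc]
        _ = _ := by rw [hU]; simp only [Matrix.mul_assoc, Matrix.mul_one]
    rw [e1, e2] at e
    exact e
  have h2 : Vᴴ * D * U = 0 := by
    ext k j
    have e := congrFun (congrFun h1 k) j
    rw [Matrix.add_apply, Matrix.smul_apply, Matrix.diagonal_mul, Matrix.mul_diagonal,
      smul_eq_mul, Matrix.zero_apply] at e
    have e2 : ((q k + t * p j : ℝ) : ℂ) * (Vᴴ * D * U) k j = 0 := by
      rw [← e]; push_cast; ring
    have hne : ((q k + t * p j : ℝ) : ℂ) ≠ 0 := by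
      exact_mod_cast (add_pos_of_pos_of_nonneg (hq k) (mul_nonneg ht (hp j).le)).ne'
    rw [Matrix.zero_apply]
    exact (mul_eq_zero.1 e2).resolve_left hne
  calc D = (V * Vᴴ) * D * (U * Uᴴ) := by rw [hU', hV', Matrix.one_mul, Matrix.mul_one]
    _ = V * (Vᴴ * D * U) * Uᴴ := by simp only [Matrix.mul_assoc]
    _ = 0 := by rw [h2, Matrix.mul_zero, Matrix.zero_mul]

variable {E : Matrix n n ℂ → Matrix n n ℂ}

theorem trace_range (hE : IsCE E) {A : Matrix n n ℂ} (hA : E A = A) (B : Matrix n n ℂ) :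
    (A * E B).trace = (A * B).trace := by
  rw [← hE.tr (A * B)]
  have := hE.mul_left A B
  rw [hA] at this
  rw [this]

theorem star_range (hE : IsCE E) {A : Matrix n n ℂ} (hA : E A = A) : E Aᴴ = Aᴴ := by
  rw [hE.star, hA]

/-- the quadratic form does not change on the range -/
theorem phi_range (hE : IsCE E) (ρ σ : Matrix n n ℂ) (t : ℝ) {Z : Matrix n n ℂ} (hZ : E Z = Z) :
    Phi (E ρ) (E σ) t Z = Phi ρ σ t Z := by
  have h1 : (Zᴴ * E ρ).trace = (Zᴴ * ρ).trace := trace_range hE (star_range hE hZ) ρ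
  have h2 : (Zᴴ * E σ * Z).trace = (Zᴴ * σ * Z).trace := by
    rw [Matrix.trace_mul_cycle, Matrix.trace_mul_cycle Zᴴ σ Z]
    exact trace_range hE (mul_range hE hZ (star_range hE hZ)) σ
  have h3 : (Z * E ρ * Zᴴ).trace = (Z * ρ * Zᴴ).trace := by
    rw [Matrix.trace_mul_cycle, Matrix.trace_mul_cycle Z ρ Zᴴ]
    exact trace_range hE (mul_range hE (star_range hE hZ) hZ) ρ
  unfold Phi
  rw [h1, h2, h3]

theorem fs_le (hE : IsCE E) {U V U' V' : Matrix n n ℂ} (hU : Uᴴ * U = 1) (hU1 : U * Uᴴ = 1)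
    (hV : Vᴴ * V = 1) (hV1 : V * Vᴴ = 1) (hU' : U'ᴴ * U' = 1) (hU1' : U' * U'ᴴ = 1)
    (hV' : V'ᴴ * V' = 1) (hV1' : V' * V'ᴴ = 1) (p q p' q' : n → ℝ) (hp : ∀ i, 0 < p i)
    (hq : ∀ i, 0 < q i) (hp' : ∀ i, 0 < p' i) (hq' : ∀ i, 0 < q' i)
    (hρ : U' * diagonal (fun i => (p' i : ℂ)) * U'ᴴ = E (U * diagonal (fun i => (p i : ℂ)) * Uᴴ))
    (hσ : V' * diagonal (fun i => (q' i : ℂ)) * V'ᴴ = E (V * diagonal (fun i => (q i : ℂ)) * Vᴴ))
    (t : ℝ) (ht : 0 ≤ t) : Fs (V'ᴴ * U') p' q' t ≤ Fs (Vᴴ * U) p q t := by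
  obtain ⟨Z, hZ1, hZ2⟩ := exists_max hU' hV' hV1' p' q' hp' hq' t ht
  have hEρ : E (U' * diagonal (fun i => (p' i : ℂ)) * U'ᴴ) =
      U' * diagonal (fun i => (p' i : ℂ)) * U'ᴴ := by rw [hρ, hE.idem]
  have hEσ : E (V' * diagonal (fun i => (q' i : ℂ)) * V'ᴴ) =
      V' * diagonal (fun i => (q' i : ℂ)) * V'ᴴ := by rw [hσ, hE.idem]
  have hZ3 : (V' * diagonal (fun i => (q' i : ℂ)) * V'ᴴ) * E Z +
      (t : ℂ) • (E Z * (U' * diagonal (fun i => (p' i : ℂ)) * U'ᴴ)) =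
      U' * diagonal (fun i => (p' i : ℂ)) * U'ᴴ := by
    have h1 := congrArg E hZ1
    rw [hEρ, hE.add, hE.smul] at h1
    have h2 := hE.mul_left (V' * diagonal (fun i => (q' i : ℂ)) * V'ᴴ) Z
    rw [hEσ] at h2
    have h3 := hE.mul_right Z (U' * diagonal (fun i => (p' i : ℂ)) * U'ᴴ)
    rw [hEρ] at h3
    rw [h2, h3] at h1
    exact h1
  have hD : Z - E Z = 0 := by
    apply unique_zero hU' hU1' hV' hV1' p' q' hp' hq' t ht
    rw [Matrix.mul_sub, Matrix.sub_mul, smul_sub]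
    have h4 := sub_eq_zero.2 (hZ1.trans hZ3.symm)
    rw [← h4]
    abel
  have hEZ : E Z = Z := (sub_eq_zero.1 hD).symm
  rw [← hZ2, hρ, hσ, phi_range hE _ _ t hEZ]
  exact phi_le hU hU1 hV hV1 p q hp hq t ht Z

/-- the primitive of `Fs` -/
def Lg (W : Matrix n n ℂ) (p q : n → ℝ) (T : ℝ) : ℝ :=
  ∑ k, ∑ j, Complex.normSq (W k j) * (p j * Real.log (q k / p j + T))

theorem hasDeriv_Lg (W : Matrix n n ℂ) (p q : n → ℝ) (hp : ∀ i, 0 < p i) (hq : ∀ i, 0 < q i)
    (T : ℝ) (hT : 0 ≤ T) : HasDerivAt (Lg W p q) (Fs W p q T) T := by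
  unfold Lg Fs
  refine HasDerivAt.fun_sum fun k _ => HasDerivAt.fun_sum fun j _ => ?_
  have hpos : 0 < q k / p j + T := add_pos_of_pos_of_nonneg (div_pos (hq k) (hp j)) hT
  have h1 : HasDerivAt (fun T : ℝ => q k / p j + T) 1 T := (hasDerivAt_id T).const_add _
  have h2 := (h1.log hpos.ne').const_mul (p j)
  have h3 := h2.const_mul (Complex.normSq (W k j))
  have hpj := (hp j).ne'
  have h5 : q k + T * p j ≠ 0 :=
    (add_pos_of_pos_of_nonneg (hq k) (mul_nonneg hT (hp j).le)).ne'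
  have h6 : q k / p j + T = (q k + T * p j) / p j := by field_simp
  have h7 : Complex.normSq (W k j) * (p j * (1 / (q k / p j + T))) =
      Complex.normSq (W k j) * (p j ^ 2 / (q k + T * p j)) := by
    rw [h6]
    field_simp
  rw [h7] at h3
  exact h3

theorem tendsto_Lg (W : Matrix n n ℂ) (p q : n → ℝ) :
    Filter.Tendsto (fun T => Lg W p q T - (∑ k, ∑ j, Complex.normSq (W k j) * p j) * Real.log T)
      Filter.atTop (nhds 0) := by
  have h1 : ∀ T, Lg W p q T - (∑ k, ∑ j, Complex.normSq (W k j) * p j) * Real.log T =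
      ∑ k, ∑ j, (Complex.normSq (W k j) * p j) * (Real.log (T + q k / p j) - Real.log T) := by
    intro T
    unfold Lg
    rw [Finset.sum_mul, ← Finset.sum_sub_distrib]
    refine Finset.sum_congr rfl fun k _ => ?_
    rw [Finset.sum_mul, ← Finset.sum_sub_distrib]
    refine Finset.sum_congr rfl fun j _ => ?_
    rw [add_comm (q k / p j) T]
    ring
  simp only [h1]
  have h2 : (0 : ℝ) = ∑ k : n, ∑ j : n, (Complex.normSq (W k j) * p j) * 0 := by simp
  rw [h2]
  refine tendsto_finsetSum _ fun k _ => tendsto_finsetSum _ fun j _ => ?_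
  exact (Real.tendsto_log_comp_add_sub_log (q k / p j)).const_mul _

theorem main_ineq (W W' : Matrix n n ℂ) (p q p' q' : n → ℝ) (hp : ∀ i, 0 < p i)
    (hq : ∀ i, 0 < q i) (hp' : ∀ i, 0 < p' i) (hq' : ∀ i, 0 < q' i)
    (htr : ∑ k, ∑ j, Complex.normSq (W' k j) * p' j = ∑ k, ∑ j, Complex.normSq (W k j) * p j)
    (hF : ∀ t : ℝ, 0 ≤ t → Fs W' p' q' t ≤ Fs W p q t) : Lg W p q 0 ≤ Lg W' p' q' 0 := by
  have hmono : MonotoneOn (fun T => Lg W p q T - Lg W' p' q' T) (Set.Ici 0) := by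
    apply monotoneOn_of_deriv_nonneg (convex_Ici 0)
    · intro T hT
      exact ((hasDeriv_Lg W p q hp hq T hT).sub
        (hasDeriv_Lg W' p' q' hp' hq' T hT)).continuousAt.continuousWithinAt
    · intro T hT
      rw [interior_Ici] at hT
      exact ((hasDeriv_Lg W p q hp hq T (le_of_lt hT)).sub
        (hasDeriv_Lg W' p' q' hp' hq' T (le_of_lt hT))).differentiableAt.differentiableWithinAt
    · intro T hT
      rw [interior_Ici] at hT
      have h := ((hasDeriv_Lg W p q hp hq T (le_of_lt hT)).sub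
        (hasDeriv_Lg W' p' q' hp' hq' T (le_of_lt hT))).deriv
      have e : (Lg W p q - Lg W' p' q') = (fun T => Lg W p q T - Lg W' p' q' T) := rfl
      rw [e] at h
      rw [h]
      exact sub_nonneg.2 (hF T (le_of_lt hT))
  have hlim : Filter.Tendsto (fun T => Lg W p q T - Lg W' p' q' T) Filter.atTop (nhds 0) := by
    have h1 := (tendsto_Lg W p q).sub (tendsto_Lg W' p' q')
    rw [sub_zero] at h1
    refine h1.congr fun T => ?_
    rw [htr]
    ring
  have h0 : Lg W p q 0 - Lg W' p' q' 0 ≤ 0 := by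
    refine ge_of_tendsto hlim ?_
    filter_upwards [Filter.eventually_ge_atTop 0] with T hT
    exact hmono (Set.mem_Ici.2 le_rfl) (Set.mem_Ici.2 hT) hT
  linarith

/-- the relative entropy in terms of the diagonalisations -/
theorem entropy_eq {X Y U V : Matrix n n ℂ} {x y : n → ℝ} (hU : Uᴴ * U = 1)
    (hV1 : V * Vᴴ = 1) (hX : X = U * diagonal (fun i => (x i : ℂ)) * Uᴴ)
    (hY : Y = V * diagonal (fun i => (y i : ℂ)) * Vᴴ)
    (hXe : NormedSpace.exp X = U * diagonal (fun i => (Real.exp (x i) : ℂ)) * Uᴴ) :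
    (NormedSpace.exp X * (X - Y)).trace.re =
      - Lg (Vᴴ * U) (fun i => Real.exp (x i)) (fun i => Real.exp (y i)) 0 := by
  have h1 : NormedSpace.exp X * X =
      U * diagonal (fun i => ((Real.exp (x i) * x i : ℝ) : ℂ)) * Uᴴ *
        (V * diagonal (fun i => ((1 : ℝ) : ℂ)) * Vᴴ) := by
    have e1 : V * diagonal (fun _ : n => ((1 : ℝ) : ℂ)) * Vᴴ = 1 := by
      rw [Complex.ofReal_one, Matrix.diagonal_one, Matrix.mul_one, hV1]
    rw [e1, Matrix.mul_one, hXe]
    conv_lhs => rw [hX]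
    calc U * diagonal (fun i => (Real.exp (x i) : ℂ)) * Uᴴ *
          (U * diagonal (fun i => (x i : ℂ)) * Uᴴ)
        = U * diagonal (fun i => (Real.exp (x i) : ℂ)) * (Uᴴ * U) *
          diagonal (fun i => (x i : ℂ)) * Uᴴ := by simp only [Matrix.mul_assoc]
      _ = U * (diagonal (fun i => (Real.exp (x i) : ℂ)) * diagonal (fun i => (x i : ℂ))) * Uᴴ := by
          rw [hU, Matrix.mul_one]; simp only [Matrix.mul_assoc]
      _ = _ := by
          rw [Matrix.diagonal_mul_diagonal]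
          simp only [Complex.ofReal_mul]
  have h2 : (NormedSpace.exp X * X).trace =
      ∑ k, ∑ j, ((Complex.normSq ((Vᴴ * U) k j) * (Real.exp (x j) * x j) * 1 : ℝ) : ℂ) := by
    rw [h1]
    exact trace_two _ _
  have h3 : (NormedSpace.exp X * Y).trace =
      ∑ k, ∑ j, ((Complex.normSq ((Vᴴ * U) k j) * Real.exp (x j) * y k : ℝ) : ℂ) := by
    rw [hXe, hY]
    exact trace_two _ _
  rw [Matrix.mul_sub, Matrix.trace_sub, h2, h3]
  unfold Lg
  rw [← Complex.ofReal_re (-∑ k, ∑ j, Complex.normSq ((Vᴴ * U) k j) *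
    (Real.exp (x j) * Real.log (Real.exp (y k) / Real.exp (x j) + 0)))]
  congr 1
  push_cast
  rw [← Finset.sum_sub_distrib, ← Finset.sum_neg_distrib]
  refine Finset.sum_congr rfl fun k _ => ?_
  rw [← Finset.sum_sub_distrib, ← Finset.sum_neg_distrib]
  refine Finset.sum_congr rfl fun j _ => ?_
  rw [add_zero, ← Real.exp_sub, Real.log_exp]
  push_cast
  ring

end

theorem t_mono : StmMono := by
  intro n _ _ E hE X Y X' Y' hX hY hX' hY' hρ hσ
  obtain ⟨U, x, hU1, hU, hXd, hXe⟩ := spec hX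
  obtain ⟨V, y, hV1, hV, hYd, hYe⟩ := spec hY
  obtain ⟨U', x', hU1', hU', hXd', hXe'⟩ := spec hX'
  obtain ⟨V', y', hV1', hV', hYd', hYe'⟩ := spec hY'
  rw [entropy_eq hU hV1 hXd hYd hXe, entropy_eq hU' hV1' hXd' hYd' hXe']
  apply neg_le_neg
  have hρ1 := hρ
  rw [hXe, hXe'] at hρ1
  have hσ1 := hσ
  rw [hYe, hYe'] at hσ1
  apply main_ineq _ _ _ _ _ _ (fun i => Real.exp_pos _) (fun i => Real.exp_pos _)
    (fun i => Real.exp_pos _) (fun i => Real.exp_pos _)
  · have key : ∀ {U V : Matrix n n ℂ} (p : n → ℝ), V * Vᴴ = 1 →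
        (U * diagonal (fun i => (p i : ℂ)) * Uᴴ).trace =
        ((∑ k, ∑ j, Complex.normSq ((Vᴴ * U) k j) * p j : ℝ) : ℂ) := by
      intro U V p hV1
      have e1 : V * diagonal (fun _ : n => ((1 : ℝ) : ℂ)) * Vᴴ = 1 := by
        rw [Complex.ofReal_one, Matrix.diagonal_one, Matrix.mul_one, hV1]
      have e2 := trace_two (U := U) (V := V) p (fun _ => (1 : ℝ))
      rw [e1, Matrix.mul_one] at e2
      rw [e2]
      push_cast
      refine Finset.sum_congr rfl fun k _ => Finset.sum_congr rfl fun j _ => ?_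
      ring
    have h1 := key (fun i => Real.exp (x i)) hV1 (U := U)
    have h2 := key (fun i => Real.exp (x' i)) hV1' (U := U')
    have h3 := hE.tr (U * diagonal (fun i => (Real.exp (x i) : ℂ)) * Uᴴ)
    rw [← hρ1, h1, h2] at h3
    exact_mod_cast h3
  · intro t ht
    exact fs_le hE hU hU1 hV hV1 hU' hU1' hV' hV1' _ _ _ _ (fun i => Real.exp_pos _)
      (fun i => Real.exp_pos _) (fun i => Real.exp_pos _) (fun i => Real.exp_pos _) hρ1 hσ1 t ht

end Pool.Agent.U460.MK
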